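import Mathlib

/-!
# The ratio diameter / average distance is maximised by a balanced bug
-/

set_option autoImplicit false

namespace Pool.Agent.Results.MP_aedb6c_co.BalancedBug

open SimpleGraph Finset

/-- The bug `Bug_{p,k₁,k₂}`: the complete graph on `Fin p` without the edge joining `u = 0` and
`v = 1`, with a path on `k₁` new vertices attached to `u` and a path on `k₂` new vertices attached
to `v` (the vertex number `0` of each path is the one joined to `u`, resp. `v`). -/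
def bug (p k₁ k₂ : ℕ) : SimpleGraph (Fin p ⊕ (Fin k₁ ⊕ Fin k₂)) :=
  SimpleGraph.fromRel fun x y =>
    match x, y with
    | .inl a, .inl b => ¬ (a.val = 0 ∧ b.val = 1) ∧ ¬ (a.val = 1 ∧ b.val = 0)
    | .inl a, .inr (.inl i) => a.val = 0 ∧ i.val = 0
    | .inl a, .inr (.inr i) => a.val = 1 ∧ i.val = 0
    | .inr (.inl i), .inr (.inl j) => i.val + 1 = j.val
    | .inr (.inr i), .inr (.inr j) => i.val + 1 = j.val
    | _, _ => False

/-- The average distance: the mean of `d(u, v)` over all pairs of distinct vertices (the sum over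
ordered pairs counts every unordered pair twice and `d(u, u) = 0`). -/
noncomputable def avgDist {V : Type*} [Fintype V] (G : SimpleGraph V) : ℝ :=
  (∑ u : V, ∑ v : V, (G.dist u v : ℝ)) / ((Fintype.card V : ℝ) * ((Fintype.card V : ℝ) - 1))

/-- Position of a vertex of the bug along its longest geodesic. -/
def pos (p k₁ k₂ : ℕ) : Fin p ⊕ (Fin k₁ ⊕ Fin k₂) → ℕ
  | .inl a => if a.val = 0 then k₁ else if a.val = 1 then k₁ + 2 else k₁ + 1
  | .inr (.inl i) => k₁ - 1 - i.val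
  | .inr (.inr i) => k₁ + 3 + i.val

theorem adj_of_pos {p k₁ k₂ : ℕ} (x y : Fin p ⊕ (Fin k₁ ⊕ Fin k₂)) (hne : x ≠ y)
    (h1 : pos p k₁ k₂ x ≤ pos p k₁ k₂ y + 1) (h2 : pos p k₁ k₂ y ≤ pos p k₁ k₂ x + 1) :
    (bug p k₁ k₂).Adj x y := by
  unfold bug
  rw [SimpleGraph.fromRel_adj]
  refine ⟨hne, ?_⟩
  rcases x with a | a | a <;> rcases y with b | b | b <;>
    simp only [pos, ne_eq, Sum.inl.injEq, Sum.inr.injEq, Fin.ext_iff, reduceCtorEq,
      not_false_eq_true] at hne h1 h2 ⊢ <;>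
    have ha := a.isLt <;> have hb := b.isLt <;>
    (try split_ifs at h1 h2) <;> omega

theorem pos_of_adj {p k₁ k₂ : ℕ} (x y : Fin p ⊕ (Fin k₁ ⊕ Fin k₂))
    (h : (bug p k₁ k₂).Adj x y) :
    pos p k₁ k₂ y ≤ pos p k₁ k₂ x + 1 := by
  unfold bug at h
  rw [SimpleGraph.fromRel_adj] at h
  obtain ⟨hne, h⟩ := h
  rcases x with a | a | a <;> rcases y with b | b | b <;>
    simp only [pos, ne_eq, Sum.inl.injEq, Sum.inr.injEq, Fin.ext_iff, reduceCtorEq,
      not_false_eq_true, or_false, false_or, or_self] at hne h ⊢ <;>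
    have ha := a.isLt <;> have hb := b.isLt <;>
    (try split_ifs) <;> omega

theorem exists_pos {p k₁ k₂ : ℕ} (hp : 3 ≤ p) (t : ℕ) (ht : t ≤ k₁ + k₂ + 2) :
    ∃ z, pos p k₁ k₂ z = t := by
  rcases lt_trichotomy t (k₁ + 1) with h | h | h
  · rcases Nat.lt_or_ge t k₁ with h' | h'
    · exact ⟨.inr (.inl ⟨k₁ - 1 - t, by omega⟩), by simp only [pos]; omega⟩
    · exact ⟨.inl ⟨0, by omega⟩, by simp only [pos, if_true]; omega⟩
  · refine ⟨.inl ⟨2, by omega⟩, ?_⟩
    simp only [pos]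
    rw [if_neg (by omega), if_neg (by omega), h]
  · rcases Nat.lt_or_ge t (k₁ + 3) with h' | h'
    · refine ⟨.inl ⟨1, by omega⟩, ?_⟩
      simp only [pos]
      rw [if_neg (by omega), if_pos trivial]
      omega
    · exact ⟨.inr (.inr ⟨t - (k₁ + 3), by omega⟩), by simp only [pos]; omega⟩

theorem pos_le {p k₁ k₂ : ℕ} (x : Fin p ⊕ (Fin k₁ ⊕ Fin k₂)) :
    pos p k₁ k₂ x ≤ k₁ + k₂ + 2 := by
  rcases x with a | a | a <;> have ha := a.isLt <;> simp only [pos] <;> (try split_ifs) <;> omega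

theorem walk_up {p k₁ k₂ : ℕ} (hp : 3 ≤ p) (d : ℕ) :
    ∀ x y : Fin p ⊕ (Fin k₁ ⊕ Fin k₂), pos p k₁ k₂ y = pos p k₁ k₂ x + (d + 1) →
      ∃ w : (bug p k₁ k₂).Walk x y, w.length = d + 1 := by
  induction d with
  | zero =>
    intro x y h
    have hadj : (bug p k₁ k₂).Adj x y :=
      adj_of_pos x y (by rintro rfl; omega) (by omega) (by omega)
    exact ⟨hadj.toWalk, rfl⟩
  | succ d ih =>
    intro x y h
    obtain ⟨z, hz⟩ := exists_pos (k₁ := k₁) (k₂ := k₂) hp (pos p k₁ k₂ x + (d + 1))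
      (by have := pos_le y; omega)
    obtain ⟨w, hw⟩ := ih x z hz
    have hadj : (bug p k₁ k₂).Adj z y :=
      adj_of_pos z y (by rintro rfl; omega) (by omega) (by omega)
    exact ⟨w.concat hadj, by rw [SimpleGraph.Walk.length_concat, hw]⟩

/-- The upper bound for the distances of the bug. -/
def gB (p k₁ k₂ : ℕ) (x y : Fin p ⊕ (Fin k₁ ⊕ Fin k₂)) : ℕ :=
  if x = y then 0 else max 1 ((pos p k₁ k₂ x - pos p k₁ k₂ y) + (pos p k₁ k₂ y - pos p k₁ k₂ x))

theorem walk_gB {p k₁ k₂ : ℕ} (hp : 3 ≤ p) (x y : Fin p ⊕ (Fin k₁ ⊕ Fin k₂)) :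
    ∃ w : (bug p k₁ k₂).Walk x y, w.length ≤ gB p k₁ k₂ x y := by
  by_cases hxy : x = y
  · subst hxy
    exact ⟨.nil, by simp [gB]⟩
  unfold gB
  rw [if_neg hxy]
  rcases lt_trichotomy (pos p k₁ k₂ x) (pos p k₁ k₂ y) with h | h | h
  · obtain ⟨w, hw⟩ := walk_up (k₁ := k₁) (k₂ := k₂) hp
      (pos p k₁ k₂ y - pos p k₁ k₂ x - 1) x y (by omega)
    exact ⟨w, by omega⟩
  · have hadj : (bug p k₁ k₂).Adj x y := adj_of_pos x y hxy (by omega) (by omega)
    exact ⟨hadj.toWalk, by simp⟩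
  · obtain ⟨w, hw⟩ := walk_up (k₁ := k₁) (k₂ := k₂) hp
      (pos p k₁ k₂ x - pos p k₁ k₂ y - 1) y x (by omega)
    exact ⟨w.reverse, by rw [SimpleGraph.Walk.length_reverse]; omega⟩

theorem bug_connected {p k₁ k₂ : ℕ} (hp : 3 ≤ p) : (bug p k₁ k₂).Connected := by
  have : Nonempty (Fin p ⊕ (Fin k₁ ⊕ Fin k₂)) := ⟨.inl ⟨0, by omega⟩⟩
  exact ⟨fun x y => (walk_gB hp x y).choose.reachable⟩

theorem dist_bug_le {p k₁ k₂ : ℕ} (hp : 3 ≤ p) (x y : Fin p ⊕ (Fin k₁ ⊕ Fin k₂)) :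
    (bug p k₁ k₂).dist x y ≤ gB p k₁ k₂ x y := by
  obtain ⟨w, hw⟩ := walk_gB hp x y
  exact (SimpleGraph.dist_le w).trans hw

theorem pos_walk {p k₁ k₂ : ℕ} {x y : Fin p ⊕ (Fin k₁ ⊕ Fin k₂)}
    (w : (bug p k₁ k₂).Walk x y) : pos p k₁ k₂ y ≤ pos p k₁ k₂ x + w.length := by
  induction w with
  | nil => simp
  | cons h w ih =>
    have := pos_of_adj _ _ h
    rw [SimpleGraph.Walk.length_cons]
    omega

theorem diam_bug_ge {p k₁ k₂ : ℕ} (hp : 3 ≤ p) : k₁ + k₂ + 2 ≤ (bug p k₁ k₂).diam := by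
  have : Nonempty (Fin p ⊕ (Fin k₁ ⊕ Fin k₂)) := ⟨.inl ⟨0, by omega⟩⟩
  obtain ⟨x, hx⟩ := exists_pos (k₁ := k₁) (k₂ := k₂) hp 0 (by omega)
  obtain ⟨y, hy⟩ := exists_pos (k₁ := k₁) (k₂ := k₂) hp (k₁ + k₂ + 2) le_rfl
  obtain ⟨w, hw⟩ := (bug_connected (k₁ := k₁) (k₂ := k₂) hp).exists_walk_length_eq_dist x y
  have h1 := pos_walk w
  have h2 : (bug p k₁ k₂).dist x y ≤ (bug p k₁ k₂).diam :=
    SimpleGraph.dist_le_diam ((SimpleGraph.connected_iff_ediam_ne_top).1 (bug_connected hp))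
  omega

section general

variable {V : Type*} {G : SimpleGraph V}

/-- A geodesic of length `diam`. -/
theorem exists_geodesic (hG : G.Connected) :
    ∃ v : ℕ → V, ∀ s t, s ≤ t → t ≤ G.diam → G.dist (v s) (v t) = t - s := by
  have := hG.nonempty
  obtain ⟨a, b, hab⟩ := SimpleGraph.exists_dist_eq_diam (G := G)
  obtain ⟨w, hw⟩ := hG.exists_walk_length_eq_dist a b
  refine ⟨w.getVert, ?_⟩
  have hup : ∀ s d, s + d ≤ G.diam → G.dist (w.getVert s) (w.getVert (s + d)) ≤ d := by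
    intro s d
    induction d with
    | zero => intro _; simp
    | succ d ih =>
      intro h
      have h1 := ih (by omega)
      have h2 : G.Adj (w.getVert (s + d)) (w.getVert (s + d + 1)) :=
        w.adj_getVert_succ (by omega)
      have h3 : G.dist (w.getVert (s + d)) (w.getVert (s + d + 1)) = 1 :=
        SimpleGraph.dist_eq_one_iff_adj.2 h2
      have h4 := hG.dist_triangle (u := w.getVert s) (v := w.getVert (s + d))
        (w := w.getVert (s + d + 1))
      rw [← add_assoc]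
      omega
  intro s t hst ht
  have h1 := hup s (t - s) (by omega)
  rw [show s + (t - s) = t by omega] at h1
  have h2 := hup 0 s (by omega)
  have h3 := hup t (G.diam - t) (by omega)
  rw [show t + (G.diam - t) = G.diam by omega] at h3
  rw [zero_add, SimpleGraph.Walk.getVert_zero] at h2
  have h5 : w.getVert G.diam = b := by
    rw [← hab, ← hw]; exact w.getVert_length
  rw [h5] at h3
  have h6 := hG.dist_triangle (u := a) (v := w.getVert s) (w := b)
  have h7 := hG.dist_triangle (u := w.getVert s) (v := w.getVert t) (w := b)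
  omega

/-- The pairing argument. -/
theorem pairing (D c : ℕ) (hc : 2 * c ≤ D) (hc' : D ≤ 2 * c + 1) (A : ℕ → ℕ)
    (hA1 : ∀ t ≤ D, 1 ≤ A t) (hA : ∀ t ≤ D, (D - 2 * t) + (2 * t - D) ≤ A t + A (D - t)) :
    ∑ t : Fin (D + 1), max 1 ((c - t.val) + (t.val - c)) ≤ ∑ t : Fin (D + 1), A t.val := by
  have h1 : ∀ F : ℕ → ℕ, ∑ t : Fin (D + 1), F (D - t.val) = ∑ t : Fin (D + 1), F t.val := by
    intro F
    rw [← Equiv.sum_comp Fin.revPerm]
    apply Finset.sum_congr rfl
    intro t _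
    have : (Fin.revPerm t).val = D - t.val := by
      simp only [Fin.revPerm_apply, Fin.val_rev]; omega
    rw [this]
    congr 1
    omega
  have h2 : ∑ t : Fin (D + 1), (max 1 ((c - t.val) + (t.val - c)) +
      max 1 ((c - (D - t.val)) + ((D - t.val) - c))) ≤
      ∑ t : Fin (D + 1), (A t.val + A (D - t.val)) := by
    apply Finset.sum_le_sum
    intro t _
    have h3 := hA t.val (by omega)
    have h4 := hA1 t.val (by omega)
    have h5 := hA1 (D - t.val) (by omega)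
    omega
  rw [Finset.sum_add_distrib, Finset.sum_add_distrib, h1 A,
    h1 (fun s => max 1 ((c - s) + (s - c)))] at h2
  omega

end general

/-- Enumeration of the bug: first the path, then the other vertices of the clique. -/
def eF (p k₁ k₂ : ℕ) (hp : 3 ≤ p) :
    Fin (k₁ + k₂ + 2 + 1) ⊕ Fin (p - 3) → Fin p ⊕ (Fin k₁ ⊕ Fin k₂)
  | .inl t =>
    if h : t.val < k₁ then .inr (.inl ⟨k₁ - 1 - t.val, by omega⟩)
    else if h1 : t.val = k₁ then .inl ⟨0, by omega⟩
    else if h2 : t.val = k₁ + 1 then .inl ⟨2, by omega⟩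
    else if h3 : t.val = k₁ + 2 then .inl ⟨1, by omega⟩
    else .inr (.inr ⟨t.val - (k₁ + 3), by omega⟩)
  | .inr j => .inl ⟨3 + j.val, by omega⟩

theorem pos_eF_inl (p k₁ k₂ : ℕ) (hp : 3 ≤ p) (t : Fin (k₁ + k₂ + 2 + 1)) :
    pos p k₁ k₂ (eF p k₁ k₂ hp (.inl t)) = t.val := by
  simp only [eF]
  split_ifs with h1 h2 h3 h4 <;> simp [pos] <;> omega

theorem pos_eF_inr (p k₁ k₂ : ℕ) (hp : 3 ≤ p) (j : Fin (p - 3)) :
    pos p k₁ k₂ (eF p k₁ k₂ hp (.inr j)) = k₁ + 1 := by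
  unfold eF
  simp only [pos]
  rw [if_neg (by omega), if_neg (by omega)]

theorem eF_ne (p k₁ k₂ : ℕ) (hp : 3 ≤ p) (t : Fin (k₁ + k₂ + 2 + 1)) (j : Fin (p - 3)) :
    eF p k₁ k₂ hp (.inl t) ≠ eF p k₁ k₂ hp (.inr j) := by
  simp only [eF]
  split_ifs with h1 h2 h3 h4 <;> simp <;> omega

theorem eF_injective (p k₁ k₂ : ℕ) (hp : 3 ≤ p) : Function.Injective (eF p k₁ k₂ hp) := by
  rintro (t | j) (t' | j') h
  · have h1 := pos_eF_inl p k₁ k₂ hp t
    have h2 := pos_eF_inl p k₁ k₂ hp t'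
    rw [h] at h1
    congr 1
    exact Fin.ext (h1.symm.trans h2)
  · exact absurd h (eF_ne p k₁ k₂ hp t j')
  · exact absurd h.symm (eF_ne p k₁ k₂ hp t' j)
  · unfold eF at h
    simp only [Sum.inl.injEq, Fin.mk.injEq] at h
    congr 1
    exact Fin.ext (by omega)

theorem eF_bijective (p k₁ k₂ : ℕ) (hp : 3 ≤ p) : Function.Bijective (eF p k₁ k₂ hp) := by
  rw [Fintype.bijective_iff_injective_and_card]
  refine ⟨eF_injective p k₁ k₂ hp, ?_⟩
  simp only [Fintype.card_sum, Fintype.card_fin]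
  omega

/-- An injective sequence extends to an enumeration. -/
theorem exists_enum {V : Type*} [Fintype V] (D m : ℕ) (v : Fin (D + 1) → V)
    (hv : Function.Injective v) (hcard : Fintype.card V = D + 1 + m) :
    ∃ ψ : Fin (D + 1) ⊕ Fin m ≃ V, ∀ t, ψ (.inl t) = v t := by
  classical
  have h1 : Fintype.card (Fin (D + 1) ⊕ Fin m) = Fintype.card V := by
    rw [Fintype.card_sum, Fintype.card_fin, Fintype.card_fin, hcard]
  have h2 : Fintype.card (Set.range v) = D + 1 := by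
    rw [Set.card_range_of_injective hv, Fintype.card_fin]
  have h3 : Fintype.card ((Set.range v)ᶜ : Set V) = m := by
    rw [Fintype.card_compl_set, h2, hcard]; omega
  let e1 : Fin (D + 1) ≃ Set.range v := Equiv.ofInjective v hv
  let e2 : Fin m ≃ ((Set.range v)ᶜ : Set V) := (Fintype.equivFinOfCardEq h3).symm
  refine ⟨(Equiv.sumCongr e1 e2).trans (Equiv.Set.sumCompl (Set.range v)), ?_⟩
  intro t
  simp [e1]

theorem sum_gB_le {V : Type*} [Fintype V] {G : SimpleGraph V} (hG : G.Connected)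
    {p k₁ k₂ : ℕ} (hp : 3 ≤ p) (hk : k₁ ≤ k₂) (hk' : k₂ ≤ k₁ + 1)
    (hcard : Fintype.card V = p + k₁ + k₂) (hdiam : G.diam = k₁ + k₂ + 2) :
    ∑ x, ∑ y, gB p k₁ k₂ x y ≤ ∑ u, ∑ v, G.dist u v := by
  obtain ⟨v, hv⟩ := exists_geodesic hG
  rw [hdiam] at hv
  have hv' : ∀ s t, s ≤ k₁ + k₂ + 2 → t ≤ k₁ + k₂ + 2 →
      G.dist (v s) (v t) = (s - t) + (t - s) := by
    intro s t hs ht
    rcases le_total s t with h | h
    · rw [hv s t h ht]; omega
    · rw [G.dist_comm, hv t s h hs]; omega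
  have hinj : Function.Injective (fun t : Fin (k₁ + k₂ + 2 + 1) => v t.val) := by
    intro s t h
    have h1 := hv' s.val t.val (by omega) (by omega)
    simp only at h
    rw [h, G.dist_self] at h1
    exact Fin.ext (by omega)
  obtain ⟨ψ, hψ⟩ := exists_enum (k₁ + k₂ + 2) (p - 3) _ hinj (by rw [hcard]; omega)
  have hL : ∑ x, ∑ y, gB p k₁ k₂ x y =
      ∑ x, ∑ y, gB p k₁ k₂ (eF p k₁ k₂ hp x) (eF p k₁ k₂ hp y) := by
    rw [← Equiv.sum_comp (Equiv.ofBijective _ (eF_bijective p k₁ k₂ hp))]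
    apply Finset.sum_congr rfl
    intro x _
    rw [← Equiv.sum_comp (Equiv.ofBijective _ (eF_bijective p k₁ k₂ hp))]
    rfl
  have hR : ∑ u, ∑ v, G.dist u v = ∑ x, ∑ y, G.dist (ψ x) (ψ y) := by
    rw [← Equiv.sum_comp ψ]
    apply Finset.sum_congr rfl
    intro x _
    rw [← Equiv.sum_comp ψ]
  rw [hL, hR]
  simp only [Fintype.sum_sum_type, Finset.sum_add_distrib]
  have hne : ∀ t j, ψ (.inr j) ≠ v t ∨ k₁ + k₂ + 2 < t := by
    intro t j
    by_cases ht : t ≤ k₁ + k₂ + 2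
    · left
      intro h
      have h1 := hψ ⟨t, by omega⟩
      rw [← h1] at h
      exact absurd (ψ.injective h) (by simp)
    · right; omega
  -- the mixed sums
  have hmix : ∀ j : Fin (p - 3), ∑ t : Fin (k₁ + k₂ + 2 + 1),
      max 1 ((k₁ + 1 - t.val) + (t.val - (k₁ + 1))) ≤
      ∑ t : Fin (k₁ + k₂ + 2 + 1), G.dist (ψ (.inr j)) (v t.val) := by
    intro j
    apply pairing (k₁ + k₂ + 2) (k₁ + 1) (by omega) (by omega)
      (fun t => G.dist (ψ (.inr j)) (v t))
    · intro t ht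
      rcases hne t j with h | h
      · exact hG.pos_dist_of_ne h
      · omega
    · intro t ht
      have h1 := hG.dist_triangle (u := v t) (v := ψ (.inr j)) (w := v (k₁ + k₂ + 2 - t))
      rw [hv' t (k₁ + k₂ + 2 - t) ht (by omega), G.dist_comm (u := v t)] at h1
      omega
  have e1 : ∀ t s : Fin (k₁ + k₂ + 2 + 1),
      gB p k₁ k₂ (eF p k₁ k₂ hp (.inl t)) (eF p k₁ k₂ hp (.inl s)) ≤
        G.dist (ψ (.inl t)) (ψ (.inl s)) := by
    intro t s
    rw [hψ, hψ, hv' _ _ (by omega) (by omega)]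
    unfold gB
    rw [pos_eF_inl, pos_eF_inl]
    split_ifs with h
    · omega
    · have : t.val ≠ s.val := by
        intro h'
        exact h (by rw [Fin.ext h'])
      omega
  have e2 : ∀ (t : Fin (k₁ + k₂ + 2 + 1)) (j : Fin (p - 3)),
      gB p k₁ k₂ (eF p k₁ k₂ hp (.inl t)) (eF p k₁ k₂ hp (.inr j)) =
        max 1 ((k₁ + 1 - t.val) + (t.val - (k₁ + 1))) := by
    intro t j
    unfold gB
    rw [pos_eF_inl, pos_eF_inr, if_neg (eF_ne p k₁ k₂ hp t j)]
    congr 1
    omega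
  have e3 : ∀ (t : Fin (k₁ + k₂ + 2 + 1)) (j : Fin (p - 3)),
      gB p k₁ k₂ (eF p k₁ k₂ hp (.inr j)) (eF p k₁ k₂ hp (.inl t)) =
        max 1 ((k₁ + 1 - t.val) + (t.val - (k₁ + 1))) := by
    intro t j
    unfold gB
    rw [pos_eF_inl, pos_eF_inr, if_neg (eF_ne p k₁ k₂ hp t j).symm]
  have e4 : ∀ j j' : Fin (p - 3),
      gB p k₁ k₂ (eF p k₁ k₂ hp (.inr j)) (eF p k₁ k₂ hp (.inr j')) ≤
        G.dist (ψ (.inr j)) (ψ (.inr j')) := by
    intro j j'
    unfold gB
    rw [pos_eF_inr, pos_eF_inr]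
    split_ifs with h
    · omega
    · have : ψ (.inr j) ≠ ψ (.inr j') := by
        intro h'
        exact h (by rw [ψ.injective h'])
      have := hG.pos_dist_of_ne this
      omega
  have f1 := Finset.sum_le_sum (s := Finset.univ) (fun t _ =>
    Finset.sum_le_sum (s := Finset.univ) (fun s _ => e1 t s))
  have f4 := Finset.sum_le_sum (s := Finset.univ) (fun t _ =>
    Finset.sum_le_sum (s := Finset.univ) (fun s _ => e4 t s))
  have f3 : ∑ j : Fin (p - 3), ∑ t : Fin (k₁ + k₂ + 2 + 1),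
      gB p k₁ k₂ (eF p k₁ k₂ hp (.inr j)) (eF p k₁ k₂ hp (.inl t)) ≤
      ∑ j : Fin (p - 3), ∑ t : Fin (k₁ + k₂ + 2 + 1), G.dist (ψ (.inr j)) (ψ (.inl t)) := by
    apply Finset.sum_le_sum
    intro j _
    simp only [e3, hψ]
    exact hmix j
  have f2 : ∑ t : Fin (k₁ + k₂ + 2 + 1), ∑ j : Fin (p - 3),
      gB p k₁ k₂ (eF p k₁ k₂ hp (.inl t)) (eF p k₁ k₂ hp (.inr j)) ≤
      ∑ t : Fin (k₁ + k₂ + 2 + 1), ∑ j : Fin (p - 3), G.dist (ψ (.inl t)) (ψ (.inr j)) := by
    rw [Finset.sum_comm, Finset.sum_comm (f := fun t j => G.dist (ψ (.inl t)) (ψ (.inr j)))]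
    apply Finset.sum_le_sum
    intro j _
    simp only [e2, hψ]
    refine (hmix j).trans (le_of_eq ?_)
    apply Finset.sum_congr rfl
    intro t _
    rw [G.dist_comm]
  omega

/-! ### The final comparison -/

theorem sum_dist_le_gB {p k₁ k₂ : ℕ} (hp : 3 ≤ p) :
    ∑ x, ∑ y, (bug p k₁ k₂).dist x y ≤ ∑ x, ∑ y, gB p k₁ k₂ x y :=
  Finset.sum_le_sum fun x _ => Finset.sum_le_sum fun y _ => dist_bug_le hp x y

theorem card_mul_le_sum {V : Type*} [Fintype V] {G : SimpleGraph V} (hG : G.Connected) :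
    Fintype.card V * (Fintype.card V - 1) ≤ ∑ u, ∑ v, G.dist u v := by
  classical
  have h : ∀ u : V, Fintype.card V - 1 ≤ ∑ v, G.dist u v := by
    intro u
    have h1 : ∑ v ∈ Finset.univ.erase u, 1 ≤ ∑ v ∈ Finset.univ.erase u, G.dist u v := by
      apply Finset.sum_le_sum
      intro v hv
      exact hG.pos_dist_of_ne (Finset.ne_of_mem_erase hv).symm
    rw [Finset.sum_const, smul_eq_mul, mul_one, Finset.card_erase_of_mem (Finset.mem_univ u),
      Finset.card_univ] at h1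
    exact h1.trans (Finset.sum_le_sum_of_subset (Finset.erase_subset _ _))
  calc Fintype.card V * (Fintype.card V - 1) = ∑ _u : V, (Fintype.card V - 1) := by
        rw [Finset.sum_const, smul_eq_mul, Finset.card_univ]
    _ ≤ _ := Finset.sum_le_sum fun u _ => h u

theorem sum_le_diam {V : Type*} [Fintype V] {G : SimpleGraph V} (hG : G.Connected) :
    ∑ u, ∑ v, G.dist u v ≤ Fintype.card V * (Fintype.card V - 1) * G.diam := by
  classical
  have hne : Nonempty V := hG.nonempty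
  have h : ∀ u : V, ∑ v, G.dist u v ≤ (Fintype.card V - 1) * G.diam := by
    intro u
    rw [← Finset.add_sum_erase _ _ (Finset.mem_univ u), G.dist_self, zero_add]
    have h1 : ∑ v ∈ Finset.univ.erase u, G.dist u v ≤ ∑ v ∈ Finset.univ.erase u, G.diam := by
      apply Finset.sum_le_sum
      intro v _
      exact SimpleGraph.dist_le_diam ((SimpleGraph.connected_iff_ediam_ne_top).1 hG)
    rwa [Finset.sum_const, smul_eq_mul, Finset.card_erase_of_mem (Finset.mem_univ u),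
      Finset.card_univ] at h1
  calc ∑ u, ∑ v, G.dist u v ≤ ∑ _u : V, (Fintype.card V - 1) * G.diam :=
        Finset.sum_le_sum fun u _ => h u
    _ = _ := by rw [Finset.sum_const, smul_eq_mul, Finset.card_univ, mul_assoc]

/-- The ratio of diameter and average distance. -/
noncomputable def ratio {V : Type*} [Fintype V] (G : SimpleGraph V) : ℝ :=
  (G.diam : ℝ) / avgDist G

theorem ratio_le_of {V W : Type*} [Fintype V] [Fintype W] {G : SimpleGraph V} {H : SimpleGraph W}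
    (hG : G.Connected) (hH : H.Connected)
    (hc : Fintype.card V = Fintype.card W) (hn : 3 ≤ Fintype.card V)
    (h : G.diam * (∑ u, ∑ v, H.dist u v) ≤ H.diam * ∑ u, ∑ v, G.dist u v) :
    ratio G ≤ ratio H := by
  have hpos : 0 < Fintype.card V * (Fintype.card V - 1) := Nat.mul_pos (by omega) (by omega)
  have hGs : 0 < ∑ u, ∑ v, G.dist u v := lt_of_lt_of_le hpos (card_mul_le_sum hG)
  have hHs : 0 < ∑ u, ∑ v, H.dist u v := by
    have := card_mul_le_sum hH
    rw [← hc] at this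
    exact lt_of_lt_of_le hpos this
  have hGs' : (0 : ℝ) < ∑ u, ∑ v, (G.dist u v : ℝ) := by exact_mod_cast hGs
  have hHs' : (0 : ℝ) < ∑ u, ∑ v, (H.dist u v : ℝ) := by exact_mod_cast hHs
  have h' : (G.diam : ℝ) * (∑ u, ∑ v, (H.dist u v : ℝ)) ≤
      H.diam * ∑ u, ∑ v, (G.dist u v : ℝ) := by exact_mod_cast h
  have hN : (0 : ℝ) < (Fintype.card V : ℝ) * ((Fintype.card V : ℝ) - 1) := by
    have : (3 : ℝ) ≤ Fintype.card V := by exact_mod_cast hn
    nlinarith
  unfold ratio avgDist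
  rw [← hc]
  rw [div_le_div_iff₀ (div_pos hGs' hN) (div_pos hHs' hN)]
  rw [mul_div_assoc', mul_div_assoc']
  exact div_le_div_of_nonneg_right h' hN.le

/-- For every connected graph there is a balanced bug with at least the same ratio. -/
theorem exists_bug {V : Type*} [Fintype V] {G : SimpleGraph V} (hG : G.Connected)
    (hn : 3 ≤ Fintype.card V) :
    ∃ k₁ k₂ : ℕ, k₁ ≤ k₂ ∧ k₂ ≤ k₁ + 1 ∧ 3 + k₁ + k₂ ≤ Fintype.card V ∧
      ratio G ≤ ratio (bug (Fintype.card V - k₁ - k₂) k₁ k₂) := by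
  have hnt : Nontrivial V := Fintype.one_lt_card_iff_nontrivial.1 (by omega)
  have hD : G.diam ≠ 0 := SimpleGraph.connected_iff_diam_ne_zero.1 hG
  rcases Nat.lt_or_ge G.diam 2 with h1 | h1
  · -- diameter one
    refine ⟨0, 0, le_rfl, by omega, by omega, ?_⟩
    have hp : 3 ≤ Fintype.card V - 0 - 0 := by omega
    apply ratio_le_of hG (bug_connected hp)
      (by simp only [Fintype.card_sum, Fintype.card_fin]; omega) hn
    have hd : G.diam = 1 := by omega
    have h2 := sum_le_diam (bug_connected (k₁ := 0) (k₂ := 0) hp)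
    have h3 := card_mul_le_sum hG
    have h4 : Fintype.card (Fin (Fintype.card V - 0 - 0) ⊕ (Fin 0 ⊕ Fin 0)) =
        Fintype.card V := by
      simp only [Fintype.card_sum, Fintype.card_fin]; omega
    rw [h4] at h2
    rw [hd, one_mul]
    calc _ ≤ _ := h2
      _ ≤ (∑ u, ∑ v, G.dist u v) * (bug (Fintype.card V - 0 - 0) 0 0).diam :=
          Nat.mul_le_mul_right _ h3
      _ = _ := by rw [mul_comm]
  · obtain ⟨k₁, k₂, hk, hk', hD2⟩ : ∃ k₁ k₂, k₁ ≤ k₂ ∧ k₂ ≤ k₁ + 1 ∧ G.diam = k₁ + k₂ + 2 :=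
      ⟨(G.diam - 2) / 2, (G.diam - 2) - (G.diam - 2) / 2, by omega, by omega, by omega⟩
    have hle : 3 + k₁ + k₂ ≤ Fintype.card V := by
      obtain ⟨v, hv⟩ := exists_geodesic hG
      have hinj : Function.Injective (fun t : Fin (G.diam + 1) => v t.val) := by
        intro s t h
        simp only at h
        rcases le_total s.val t.val with h' | h'
        · have h1 := hv s.val t.val h' (by omega)
          rw [h, G.dist_self] at h1
          exact Fin.ext (by omega)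
        · have h1 := hv t.val s.val h' (by omega)
          rw [h, G.dist_self] at h1
          exact Fin.ext (by omega)
      have := Fintype.card_le_of_injective _ hinj
      rw [Fintype.card_fin] at this
      omega
    refine ⟨k₁, k₂, hk, hk', hle, ?_⟩
    have hp : 3 ≤ Fintype.card V - k₁ - k₂ := by omega
    apply ratio_le_of hG (bug_connected hp)
      (by simp only [Fintype.card_sum, Fintype.card_fin]; omega) hn
    have h2 := diam_bug_ge (k₁ := k₁) (k₂ := k₂) hp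
    have h3 := (sum_dist_le_gB (k₁ := k₁) (k₂ := k₂) hp).trans
      (sum_gB_le hG hp hk hk' (by omega) hD2)
    rw [hD2]
    exact Nat.mul_le_mul h2 h3

/-- Among all connected graphs on `n ≥ 3` vertices the ratio of the diameter and the average
distance is maximised by some balanced bug on `n` vertices. -/
theorem result (n : ℕ) (hn : 3 ≤ n) :
    ∃ p k₁ k₂ : ℕ, 3 ≤ p ∧ k₁ ≤ k₂ + 1 ∧ k₂ ≤ k₁ + 1 ∧ p + k₁ + k₂ = n ∧
      (bug p k₁ k₂).Connected ∧
      ∀ (V : Type) [Fintype V] (G : SimpleGraph V), Fintype.card V = n → G.Connected →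
        (G.diam : ℝ) / avgDist G ≤ ((bug p k₁ k₂).diam : ℝ) / avgDist (bug p k₁ k₂) := by
  classical
  let T : Finset (ℕ × ℕ) := (Finset.range (n + 1) ×ˢ Finset.range (n + 1)).filter
    (fun q => q.1 ≤ q.2 ∧ q.2 ≤ q.1 + 1 ∧ 3 + q.1 + q.2 ≤ n)
  have hT : T.Nonempty := ⟨(0, 0), by simp [T]; omega⟩
  obtain ⟨q, hq, hmax⟩ := Finset.exists_max_image T
    (fun q => ratio (bug (n - q.1 - q.2) q.1 q.2)) hT
  have hq' := (Finset.mem_filter.1 hq).2
  refine ⟨n - q.1 - q.2, q.1, q.2, by omega, by omega, by omega, by omega,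
    bug_connected (by omega), ?_⟩
  intro V _ G hV hG
  obtain ⟨k₁, k₂, h1, h2, h3, h4⟩ := exists_bug hG (by omega)
  rw [hV] at h3 h4
  refine h4.trans (hmax (k₁, k₂) ?_)
  simp only [T, Finset.mem_filter, Finset.mem_product, Finset.mem_range]
  omega

end Pool.Agent.Results.MP_aedb6c_co.BalancedBug
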